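import Mathlib

set_option autoImplicit false

namespace Pool.Agent.MP_b10ab5_co

open MvPolynomial

/-- A finite graph (parallel edges and loops permitted) with vertex set `V` and edge set `E` is
given by its map `ends` sending an edge to its unordered pair of end vertices.
`IsCycle ends C` says that the edge set `C` is the edge set of a circuit: for some length
`k + 1 ≥ 1` there are pairwise distinct vertices `v 0, …, v k` and pairwise distinct edges
`g 0, …, g k` such that `g i` joins `v i` to `v (i+1)` (indices modulo `k + 1`) and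
`C = {g 0, …, g k}`. -/
def IsCycle {V E : Type} [DecidableEq E] (ends : E → Sym2 V) (C : Finset E) : Prop :=
  ∃ (k : ℕ) (v : Fin (k + 1) → V) (g : Fin (k + 1) → E),
    Function.Injective v ∧ Function.Injective g ∧
      (∀ i, ends (g i) = s(v i, v (i + 1))) ∧ C = Finset.univ.image g

/-- A spanning forest: an edge set containing no cycle. -/
def IsForest {V E : Type} [DecidableEq E] (ends : E → Sym2 V) (X : Finset E) : Prop :=
  ∀ C, IsCycle ends C → ¬ C ⊆ X

open Classical in
/-- The spanning forest polynomial `G = ∑_X y^X`, over all spanning forests `X`. -/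
noncomputable def forestPoly {V E : Type} [Fintype E] [DecidableEq E] (ends : E → Sym2 V) :
    MvPolynomial E ℤ :=
  ∑ Y : Finset E with IsForest ends Y, ∏ g ∈ Y, X g

/-- The Rayleigh difference `ΔG{e,f} = G_e G_f - G G_{ef}`. -/
noncomputable def rayleighDiff {V E : Type} [Fintype E] [DecidableEq E] (ends : E → Sym2 V)
    (e f : E) : MvPolynomial E ℤ :=
  pderiv e (forestPoly ends) * pderiv f (forestPoly ends)
    - forestPoly ends * pderiv e (pderiv f (forestPoly ends))

/-- The square-free monomial exponent `1_Y`. -/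
noncomputable def ex {E : Type} [DecidableEq E] (Y : Finset E) : E →₀ ℕ :=
  ∑ g ∈ Y, Finsupp.single g 1

lemma ex_apply {E : Type} [DecidableEq E] (Y : Finset E) (g : E) :
    ex Y g = if g ∈ Y then 1 else 0 := by
  unfold ex
  rw [Finsupp.finsetSum_apply]
  simp only [Finsupp.single_apply]
  rw [Finset.sum_ite_eq' Y g (fun _ => 1)]

lemma ex_insert {E : Type} [DecidableEq E] {Y : Finset E} {g : E} (h : g ∉ Y) :
    ex (insert g Y) = Finsupp.single g 1 + ex Y := by
  unfold ex
  rw [Finset.sum_insert h]

lemma prod_X_eq {E : Type} [DecidableEq E] (Y : Finset E) :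
    (∏ g ∈ Y, X g : MvPolynomial E ℤ) = monomial (ex Y) 1 := by
  induction Y using Finset.induction_on with
  | empty => simp [ex]
  | insert g Y h ih =>
    rw [Finset.prod_insert h, ih, ex_insert h, X, monomial_mul, one_mul]

/-- The multi-affine polynomial with coefficient function `p`. -/
noncomputable def pol {E : Type} [Fintype E] [DecidableEq E] (p : Finset E → ℤ) :
    MvPolynomial E ℤ :=
  ∑ Y : Finset E, monomial (ex Y) (p Y)

lemma pderiv_pol {E : Type} [Fintype E] [DecidableEq E] (p : Finset E → ℤ) (e : E) :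
    pderiv e (pol p) = pol (fun Y => if e ∈ Y then 0 else p (insert e Y)) := by
  unfold pol
  rw [map_sum]
  have h1 : ∀ Y : Finset E, pderiv e (monomial (ex Y) (p Y))
      = if e ∈ Y then monomial (ex (Y.erase e)) (p Y) else 0 := by
    intro Y
    rw [pderiv_monomial, ex_apply]
    by_cases h : e ∈ Y
    · rw [if_pos h, if_pos h]
      have h2 : ex Y = Finsupp.single e 1 + ex (Y.erase e) := by
        rw [← ex_insert (Finset.notMem_erase e Y), Finset.insert_erase h]
      rw [h2]
      simp
    · rw [if_neg h, if_neg h]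
      simp
  rw [Finset.sum_congr rfl (fun Y _ => h1 Y)]
  rw [← Finset.sum_filter]
  have h3 : ∀ Y : Finset E, monomial (ex Y) (if e ∈ Y then 0 else p (insert e Y))
      = if e ∉ Y then monomial (ex Y) (p (insert e Y)) else (0 : MvPolynomial E ℤ) := by
    intro Y
    by_cases h : e ∈ Y <;> simp [h]
  rw [Finset.sum_congr rfl (fun Y _ => h3 Y), ← Finset.sum_filter]
  refine Finset.sum_bij (fun Y _ => Y.erase e) ?_ ?_ ?_ ?_
  · intro Y hY
    simp
  · intro Y hY Z hZ hYZ
    simp only [Finset.mem_filter, Finset.mem_univ, true_and] at hY hZ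
    rw [← Finset.insert_erase hY, ← Finset.insert_erase hZ, hYZ]
  · intro Y hY
    simp only [Finset.mem_filter, Finset.mem_univ, true_and] at hY
    exact ⟨insert e Y, by simp, Finset.erase_insert hY⟩
  · intro Y hY
    simp only [Finset.mem_filter, Finset.mem_univ, true_and] at hY
    rw [Finset.insert_erase hY]

lemma forestPoly_eq {V E : Type} [Fintype E] [DecidableEq E] (ends : E → Sym2 V)
    [DecidablePred (IsForest ends)] :
    forestPoly ends = pol (fun Y => if IsForest ends Y then 1 else 0) := by
  unfold forestPoly pol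
  rw [Finset.sum_filter]
  refine Finset.sum_congr rfl (fun Y _ => ?_)
  by_cases h : IsForest ends Y
  · simp [h, prod_X_eq]
  · simp [h]

/-- Coefficient of `y^{X₁} y^{2 X₂}` in a product of two multi-affine polynomials. -/
lemma coeff_pol_mul {E : Type} [Fintype E] [DecidableEq E] (p q : Finset E → ℤ)
    {X₁ X₂ : Finset E} (hd : Disjoint X₁ X₂) :
    coeff (ex X₁ + (ex X₂ + ex X₂)) (pol p * pol q)
      = ∑ U ∈ X₁.powerset, p (U ∪ X₂) * q ((X₁ \ U) ∪ X₂) := by
  unfold pol
  rw [Finset.sum_mul_sum, ← Finset.sum_product', coeff_sum]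
  simp only [monomial_mul, coeff_monomial]
  rw [← Finset.sum_filter]
  symm
  refine Finset.sum_bij (fun U _ => (U ∪ X₂, (X₁ \ U) ∪ X₂)) ?_ ?_ ?_ ?_
  · intro U hU
    rw [Finset.mem_powerset] at hU
    simp only [Finset.mem_filter, Finset.mem_product, Finset.mem_univ, and_self, true_and]
    ext g
    simp only [Finsupp.add_apply, ex_apply, Finset.mem_union, Finset.mem_sdiff]
    have h1 : g ∈ U → g ∈ X₁ := fun h => hU h
    have h2 : g ∈ X₁ → g ∉ X₂ := fun h => Finset.disjoint_left.mp hd h
    by_cases a : g ∈ U <;> by_cases b : g ∈ X₁ <;> by_cases c : g ∈ X₂ <;> simp_all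
  · intro U hU W hW h
    rw [Finset.mem_powerset] at hU hW
    simp only [Prod.mk.injEq] at h
    ext g
    have h1 := Finset.ext_iff.mp h.1 g
    simp only [Finset.mem_union] at h1
    have h2 : g ∈ X₁ → g ∉ X₂ := fun h => Finset.disjoint_left.mp hd h
    constructor
    · intro hg
      rcases h1.mp (Or.inl hg) with h3 | h3
      · exact h3
      · exact absurd h3 (h2 (hU hg))
    · intro hg
      rcases h1.mpr (Or.inl hg) with h3 | h3
      · exact h3
      · exact absurd h3 (h2 (hW hg))
  · rintro ⟨Y, Z⟩ h
    simp only [Finset.mem_filter, Finset.mem_product, Finset.mem_univ, and_self, true_and] at h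
    have hg : ∀ g, (if g ∈ Y then 1 else 0) + (if g ∈ Z then 1 else 0)
        = (if g ∈ X₁ then 1 else 0) + ((if g ∈ X₂ then 1 else 0) + (if g ∈ X₂ then 1 else 0)) := by
      intro g
      have := DFunLike.congr_fun h g
      simpa only [Finsupp.add_apply, ex_apply] using this
    refine ⟨Y ∩ X₁, Finset.mem_powerset.mpr Finset.inter_subset_right, ?_⟩
    rw [Prod.mk.injEq]
    constructor
    · ext g
      have h1 := hg g
      have h2 : g ∈ X₁ → g ∉ X₂ := fun h => Finset.disjoint_left.mp hd h
      simp only [Finset.mem_union, Finset.mem_inter]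
      by_cases a : g ∈ Y <;> by_cases b : g ∈ X₁ <;> by_cases c : g ∈ X₂ <;>
        by_cases d : g ∈ Z <;> simp_all
    · ext g
      have h1 := hg g
      have h2 : g ∈ X₁ → g ∉ X₂ := fun h => Finset.disjoint_left.mp hd h
      simp only [Finset.mem_union, Finset.mem_inter, Finset.mem_sdiff]
      by_cases a : g ∈ Y <;> by_cases b : g ∈ X₁ <;> by_cases c : g ∈ X₂ <;>
        by_cases d : g ∈ Z <;> simp_all
  · intro U hU
    rfl

/-- Coefficient of `y^{X₁} y^{2 X₂}` in `y^S` times the square of a multi-affine polynomial in the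
variables outside `S`. -/
lemma coeff_mon_mul_sq {E : Type} [Fintype E] [DecidableEq E] (q : Finset E → ℤ)
    {X₁ X₂ S : Finset E} (hd : Disjoint X₁ X₂) (hq : ∀ B, ¬ Disjoint B S → q B = 0) :
    coeff (ex X₁ + (ex X₂ + ex X₂)) (monomial (ex S) 1 * (pol q) ^ 2)
      = if S ⊆ X₁ then
          ∑ U ∈ (X₁ \ S).powerset, q (U ∪ X₂) * q (((X₁ \ S) \ U) ∪ X₂) else 0 := by
  by_cases hS : S ⊆ X₁
  · rw [if_pos hS]
    have h1 : ex X₁ + (ex X₂ + ex X₂) = ex S + (ex (X₁ \ S) + (ex X₂ + ex X₂)) := by
      ext g
      simp only [Finsupp.add_apply, ex_apply, Finset.mem_sdiff]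
      have h1 : g ∈ S → g ∈ X₁ := fun h => hS h
      by_cases a : g ∈ S <;> by_cases b : g ∈ X₁ <;> simp_all
    rw [h1, coeff_monomial_mul, one_mul, pow_two]
    exact coeff_pol_mul q q (Finset.disjoint_of_subset_left Finset.sdiff_subset hd)
  · rw [if_neg hS]
    obtain ⟨g, hgS, hgX⟩ := Finset.not_subset.mp hS
    rw [pow_two]
    unfold pol
    rw [Finset.sum_mul_sum, Finset.mul_sum, coeff_sum]
    refine Finset.sum_eq_zero (fun B _ => ?_)
    rw [Finset.mul_sum, coeff_sum]
    refine Finset.sum_eq_zero (fun B' _ => ?_)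
    rw [monomial_mul, monomial_mul, coeff_monomial, one_mul]
    by_cases hB : Disjoint B S
    · by_cases hB' : Disjoint B' S
      · rw [if_neg]
        intro h
        have h2 := DFunLike.congr_fun h g
        have h3 : g ∉ B := fun h => Finset.disjoint_left.mp hB h hgS
        have h4 : g ∉ B' := fun h => Finset.disjoint_left.mp hB' h hgS
        simp only [Finsupp.add_apply, ex_apply, hgS, hgX, h3, h4, if_true, if_false] at h2
        by_cases c : g ∈ X₂ <;> simp [c] at h2
      · rw [hq B' hB']; simp
    · rw [hq B hB]; simp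

end Pool.Agent.MP_b10ab5_co
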