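import Pool.Agent.MP_b10ab5_co.Refl

set_option autoImplicit false

namespace Pool.Agent.MP_b10ab5_co

/-- The thirteen edges: the twelve edges of a 3-cube and one long diagonal (edge number `1`). -/
def ends : Fin 13 → Sym2 (Fin 8) :=
  ![s(0, 1), s(2, 3), s(4, 5), s(6, 7), s(1, 2), s(3, 4), s(5, 6), s(7, 0), s(1, 4), s(5, 2), s(3, 6), s(7, 2), s(3, 0)]

/-- Codes of all cycles of the graph. -/
def cycL : List ℕ :=
  [255, 306, 461, 550, 729, 788, 1003, 1124, 1179, 1366, 1449, 1602, 1725, 1904, 1935, 2158, 2193, 2396, 2467, 2632, 2949, 3082, 3384, 3527, 3628, 4065, 4115, 4332, 4385, 4574, 4661, 4810, 4871, 5112, 5256, 5445, 5713, 6269, 6274, 6479, 6576, 6820, 7193, 7636, 7872, 7949]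

lemma cycL_isCycle : ∀ c ∈ cycL, IsCycle ends (fs 13 c) := by
  intro c hc
  simp only [cycL, List.mem_cons, List.not_mem_nil, or_false] at hc
  rcases hc with rfl | rfl | rfl | rfl | rfl | rfl | rfl | rfl | rfl | rfl | rfl | rfl | rfl | rfl | rfl | rfl | rfl | rfl | rfl | rfl | rfl | rfl | rfl | rfl | rfl | rfl | rfl | rfl | rfl | rfl | rfl | rfl | rfl | rfl | rfl | rfl | rfl | rfl | rfl | rfl | rfl | rfl | rfl | rfl | rfl | rfl
  · exact ⟨7, ![0, 1, 2, 3, 4, 5, 6, 7], ![0, 4, 1, 5, 2, 6, 3, 7],
      by decide +kernel, by decide +kernel, by decide +kernel, by decide +kernel⟩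
  · exact ⟨3, ![2, 3, 4, 1], ![1, 5, 8, 4],
      by decide +kernel, by decide +kernel, by decide +kernel, by decide +kernel⟩
  · exact ⟨5, ![0, 1, 4, 5, 6, 7], ![0, 8, 2, 6, 3, 7],
      by decide +kernel, by decide +kernel, by decide +kernel, by decide +kernel⟩
  · exact ⟨3, ![2, 3, 4, 5], ![1, 5, 2, 9],
      by decide +kernel, by decide +kernel, by decide +kernel, by decide +kernel⟩
  · exact ⟨5, ![0, 1, 2, 5, 6, 7], ![0, 4, 9, 6, 3, 7],
      by decide +kernel, by decide +kernel, by decide +kernel, by decide +kernel⟩
  · exact ⟨3, ![4, 5, 2, 1], ![2, 9, 4, 8],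
      by decide +kernel, by decide +kernel, by decide +kernel, by decide +kernel⟩
  · exact ⟨7, ![0, 1, 4, 3, 2, 5, 6, 7], ![0, 8, 5, 1, 9, 6, 3, 7],
      by decide +kernel, by decide +kernel, by decide +kernel, by decide +kernel⟩
  · exact ⟨3, ![4, 5, 6, 3], ![2, 6, 10, 5],
      by decide +kernel, by decide +kernel, by decide +kernel, by decide +kernel⟩
  · exact ⟨5, ![0, 1, 2, 3, 6, 7], ![0, 4, 1, 10, 3, 7],
      by decide +kernel, by decide +kernel, by decide +kernel, by decide +kernel⟩
  · exact ⟨5, ![2, 3, 6, 5, 4, 1], ![1, 10, 6, 2, 8, 4],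
      by decide +kernel, by decide +kernel, by decide +kernel, by decide +kernel⟩
  · exact ⟨5, ![0, 1, 4, 3, 6, 7], ![0, 8, 5, 10, 3, 7],
      by decide +kernel, by decide +kernel, by decide +kernel, by decide +kernel⟩
  · exact ⟨3, ![2, 3, 6, 5], ![1, 10, 6, 9],
      by decide +kernel, by decide +kernel, by decide +kernel, by decide +kernel⟩
  · exact ⟨7, ![0, 1, 2, 5, 4, 3, 6, 7], ![0, 4, 9, 2, 5, 10, 3, 7],
      by decide +kernel, by decide +kernel, by decide +kernel, by decide +kernel⟩
  · exact ⟨5, ![1, 2, 5, 6, 3, 4], ![4, 9, 6, 10, 5, 8],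
      by decide +kernel, by decide +kernel, by decide +kernel, by decide +kernel⟩
  · exact ⟨7, ![0, 1, 4, 5, 2, 3, 6, 7], ![0, 8, 2, 9, 1, 10, 3, 7],
      by decide +kernel, by decide +kernel, by decide +kernel, by decide +kernel⟩
  · exact ⟨5, ![2, 3, 4, 5, 6, 7], ![1, 5, 2, 6, 3, 11],
      by decide +kernel, by decide +kernel, by decide +kernel, by decide +kernel⟩
  · exact ⟨3, ![0, 1, 2, 7], ![0, 4, 11, 7],
      by decide +kernel, by decide +kernel, by decide +kernel, by decide +kernel⟩
  · exact ⟨5, ![4, 5, 6, 7, 2, 1], ![2, 6, 3, 11, 4, 8],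
      by decide +kernel, by decide +kernel, by decide +kernel, by decide +kernel⟩
  · exact ⟨5, ![0, 1, 4, 3, 2, 7], ![0, 8, 5, 1, 11, 7],
      by decide +kernel, by decide +kernel, by decide +kernel, by decide +kernel⟩
  · exact ⟨3, ![6, 7, 2, 5], ![3, 11, 9, 6],
      by decide +kernel, by decide +kernel, by decide +kernel, by decide +kernel⟩
  · exact ⟨5, ![0, 1, 4, 5, 2, 7], ![0, 8, 2, 9, 11, 7],
      by decide +kernel, by decide +kernel, by decide +kernel, by decide +kernel⟩
  · exact ⟨3, ![2, 3, 6, 7], ![1, 10, 3, 11],
      by decide +kernel, by decide +kernel, by decide +kernel, by decide +kernel⟩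
  · exact ⟨5, ![6, 7, 2, 1, 4, 3], ![3, 11, 4, 8, 5, 10],
      by decide +kernel, by decide +kernel, by decide +kernel, by decide +kernel⟩
  · exact ⟨7, ![0, 1, 4, 5, 6, 3, 2, 7], ![0, 8, 2, 6, 10, 1, 11, 7],
      by decide +kernel, by decide +kernel, by decide +kernel, by decide +kernel⟩
  · exact ⟨5, ![4, 5, 2, 7, 6, 3], ![2, 9, 11, 3, 10, 5],
      by decide +kernel, by decide +kernel, by decide +kernel, by decide +kernel⟩
  · exact ⟨7, ![0, 1, 4, 3, 6, 5, 2, 7], ![0, 8, 5, 10, 6, 9, 11, 7],
      by decide +kernel, by decide +kernel, by decide +kernel, by decide +kernel⟩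
  · exact ⟨3, ![0, 1, 2, 3], ![0, 4, 1, 12],
      by decide +kernel, by decide +kernel, by decide +kernel, by decide +kernel⟩
  · exact ⟨5, ![4, 5, 6, 7, 0, 3], ![2, 6, 3, 7, 12, 5],
      by decide +kernel, by decide +kernel, by decide +kernel, by decide +kernel⟩
  · exact ⟨3, ![0, 1, 4, 3], ![0, 8, 5, 12],
      by decide +kernel, by decide +kernel, by decide +kernel, by decide +kernel⟩
  · exact ⟨7, ![2, 3, 0, 7, 6, 5, 4, 1], ![1, 12, 7, 3, 6, 2, 8, 4],
      by decide +kernel, by decide +kernel, by decide +kernel, by decide +kernel⟩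
  · exact ⟨5, ![0, 1, 2, 5, 4, 3], ![0, 4, 9, 2, 5, 12],
      by decide +kernel, by decide +kernel, by decide +kernel, by decide +kernel⟩
  · exact ⟨5, ![2, 3, 0, 7, 6, 5], ![1, 12, 7, 3, 6, 9],
      by decide +kernel, by decide +kernel, by decide +kernel, by decide +kernel⟩
  · exact ⟨5, ![0, 1, 4, 5, 2, 3], ![0, 8, 2, 9, 1, 12],
      by decide +kernel, by decide +kernel, by decide +kernel, by decide +kernel⟩
  · exact ⟨7, ![6, 7, 0, 3, 4, 1, 2, 5], ![3, 7, 12, 5, 8, 4, 9, 6],
      by decide +kernel, by decide +kernel, by decide +kernel, by decide +kernel⟩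
  · exact ⟨3, ![6, 7, 0, 3], ![3, 7, 12, 10],
      by decide +kernel, by decide +kernel, by decide +kernel, by decide +kernel⟩
  · exact ⟨5, ![0, 1, 4, 5, 6, 3], ![0, 8, 2, 6, 10, 12],
      by decide +kernel, by decide +kernel, by decide +kernel, by decide +kernel⟩
  · exact ⟨5, ![0, 1, 2, 5, 6, 3], ![0, 4, 9, 6, 10, 12],
      by decide +kernel, by decide +kernel, by decide +kernel, by decide +kernel⟩
  · exact ⟨7, ![0, 1, 2, 7, 6, 5, 4, 3], ![0, 4, 11, 3, 6, 2, 5, 12],
      by decide +kernel, by decide +kernel, by decide +kernel, by decide +kernel⟩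
  · exact ⟨3, ![2, 3, 0, 7], ![1, 12, 7, 11],
      by decide +kernel, by decide +kernel, by decide +kernel, by decide +kernel⟩
  · exact ⟨7, ![0, 1, 4, 5, 6, 7, 2, 3], ![0, 8, 2, 6, 3, 11, 1, 12],
      by decide +kernel, by decide +kernel, by decide +kernel, by decide +kernel⟩
  · exact ⟨5, ![1, 2, 7, 0, 3, 4], ![4, 11, 7, 12, 5, 8],
      by decide +kernel, by decide +kernel, by decide +kernel, by decide +kernel⟩
  · exact ⟨5, ![4, 5, 2, 7, 0, 3], ![2, 9, 11, 7, 12, 5],
      by decide +kernel, by decide +kernel, by decide +kernel, by decide +kernel⟩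
  · exact ⟨5, ![0, 1, 2, 7, 6, 3], ![0, 4, 11, 3, 10, 12],
      by decide +kernel, by decide +kernel, by decide +kernel, by decide +kernel⟩
  · exact ⟨7, ![4, 5, 6, 3, 0, 7, 2, 1], ![2, 6, 10, 12, 7, 11, 4, 8],
      by decide +kernel, by decide +kernel, by decide +kernel, by decide +kernel⟩
  · exact ⟨5, ![5, 6, 3, 0, 7, 2], ![6, 10, 12, 7, 11, 9],
      by decide +kernel, by decide +kernel, by decide +kernel, by decide +kernel⟩
  · exact ⟨7, ![0, 1, 4, 5, 2, 7, 6, 3], ![0, 8, 2, 9, 11, 3, 10, 12],
      by decide +kernel, by decide +kernel, by decide +kernel, by decide +kernel⟩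

/-- Edges at a vertex. -/
def incL : Fin 8 → List (Fin 13) :=
  ![[0, 7, 12], [0, 4, 8], [1, 4, 9, 11], [1, 5, 10, 12], [2, 5, 8], [2, 6, 9], [3, 6, 10], [3, 7, 11]]

/-- Degree of the vertex `x` in the edge set coded by `r`. -/
def degB (r : ℕ) (x : Fin 8) : ℕ := ((incL x).filter (fun g => r.testBit g.val)).length

/-- Bounded universal quantifier. -/
def allBelow : ℕ → (ℕ → Bool) → Bool
  | 0, _ => true
  | n + 1, F => F n && allBelow n F

lemma allBelow_iff (n : ℕ) (F : ℕ → Bool) : allBelow n F = true ↔ ∀ i, i < n → F i = true := by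
  induction n with
  | zero => simp [allBelow]
  | succ n ih =>
    simp only [allBelow, Bool.and_eq_true, ih]
    constructor
    · rintro ⟨h1, h2⟩ i hi
      rcases Nat.lt_succ_iff_lt_or_eq.mp hi with h | h
      · exact h2 i h
      · rw [h]; exact h1
    · intro h
      exact ⟨h n (Nat.lt_succ_self n), fun i hi => h i (Nat.lt_succ_of_lt hi)⟩

/-- All degrees are `0` or `2`. -/
def reg2 (r : ℕ) : Bool :=
  ((degB r 0 == 0) || (degB r 0 == 2)) && ((degB r 1 == 0) || (degB r 1 == 2)) &&
  ((degB r 2 == 0) || (degB r 2 == 2)) && ((degB r 3 == 0) || (degB r 3 == 2)) &&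
  ((degB r 4 == 0) || (degB r 4 == 2)) && ((degB r 5 == 0) || (degB r 5 == 2)) &&
  ((degB r 6 == 0) || (degB r 6 == 2)) && ((degB r 7 == 0) || (degB r 7 == 2))

/-- Codes of the cycles contained in the edge set coded by `x`. -/
def subL (x : ℕ) : List ℕ := cycL.filter (fun c => c &&& x == c)

lemma reg2_check : allBelow 8192 (fun r => r == 0 || !(reg2 r) || cycL.contains r ||
    decide (2 ≤ (subL r).length)) = true := by
  decide +kernel

lemma mem_incL (x : Fin 8) (g : Fin 13) : x ∈ ends g ↔ g ∈ incL x := by
  revert x g
  decide +kernel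

lemma incL_nodup (x : Fin 8) : (incL x).Nodup := by
  revert x
  decide +kernel

lemma degB_eq (r : ℕ) (x : Fin 8) :
    degB r x = ((fs 13 r).filter (fun g => x ∈ ends g)).card := by
  have h1 : (fs 13 r).filter (fun g => x ∈ ends g)
      = ((incL x).filter (fun g => r.testBit g.val)).toFinset := by
    ext g
    simp only [Finset.mem_filter, mem_fs, mem_incL, List.mem_toFinset, List.mem_filter]
    exact and_comm
  rw [h1, List.toFinset_card_of_nodup ((incL_nodup x).filter _)]
  rfl

/-- Every vertex has degree `0` or `2` in a cycle of the graph. -/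
lemma cycle_deg (C : Finset (Fin 13)) (hC : IsCycle ends C) (x : Fin 8) :
    (C.filter (fun g => x ∈ ends g)).card = 0 ∨ (C.filter (fun g => x ∈ ends g)).card = 2 := by
  obtain ⟨k, v, g, hv, hg, hend, rfl⟩ := hC
  by_cases hx : ∃ i, v i = x
  · right
    obtain ⟨i, rfl⟩ := hx
    have hk : k ≠ 0 := by
      rintro rfl
      have h0 := hend 0
      have h1 : (0 : Fin 1) + 1 = 0 := rfl
      have h2 : ∀ a : Fin 13, ¬ (ends a).IsDiag := by decide +kernel
      apply h2 (g 0)
      rw [h0]
      exact Sym2.mk_isDiag_iff.mpr (congrArg v h1).symm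
    have hne : i - 1 ≠ i := by
      intro h
      have h1 : (1 : Fin (k + 1)) = 0 := by
        have := sub_eq_self.mp h
        exact this
      have h2 := congrArg Fin.val h1
      rw [Fin.val_one' , Fin.val_zero] at h2
      rw [Nat.mod_eq_of_lt (by omega)] at h2
      omega
    have h1 : (Finset.univ.image g).filter (fun a => v i ∈ ends a) = {g i, g (i - 1)} := by
      ext a
      simp only [Finset.mem_filter, Finset.mem_image, Finset.mem_univ, true_and,
        Finset.mem_insert, Finset.mem_singleton]
      constructor
      · rintro ⟨⟨j, rfl⟩, hj⟩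
        rw [hend j, Sym2.mem_iff] at hj
        rcases hj with h | h
        · left; rw [hv h]
        · right
          have := hv h
          rw [this]
          simp
      · rintro (rfl | rfl)
        · refine ⟨⟨i, rfl⟩, ?_⟩
          rw [hend i]
          exact Sym2.mem_mk_left _ _
        · refine ⟨⟨i - 1, rfl⟩, ?_⟩
          rw [hend (i - 1)]
          rw [sub_add_cancel]
          exact Sym2.mem_mk_right _ _
    rw [h1, Finset.card_pair]
    intro h
    exact hne (hg h).symm
  · left
    rw [Finset.card_eq_zero, Finset.filter_eq_empty_iff]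
    intro a ha hxa
    rw [Finset.mem_image] at ha
    obtain ⟨j, -, rfl⟩ := ha
    rw [hend j, Sym2.mem_iff] at hxa
    rcases hxa with h | h
    · exact hx ⟨j, h.symm⟩
    · exact hx ⟨j + 1, h.symm⟩

lemma cycle_nonempty (C : Finset (Fin 13)) (hC : IsCycle ends C) : C ≠ ∅ := by
  obtain ⟨k, v, g, hv, hg, hend, rfl⟩ := hC
  intro h
  have : g 0 ∈ (∅ : Finset (Fin 13)) := by
    rw [← h]; exact Finset.mem_image_of_mem _ (Finset.mem_univ _)
  simp at this

lemma cycle_code (r : ℕ) (hr : r < 8192) (hC : IsCycle ends (fs 13 r)) :
    r ∈ cycL ∨ 2 ≤ (subL r).length := by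
  have h := (allBelow_iff _ _).mp reg2_check r hr
  have h0 : (r == 0) = false := by
    by_contra h1
    have h2 : r = 0 := by simpa using h1
    exact cycle_nonempty _ hC (by rw [h2, fs_zero])
  have h1 : reg2 r = true := by
    have hd : ∀ x, degB r x = 0 ∨ degB r x = 2 := by
      intro x
      rw [degB_eq]
      exact cycle_deg _ hC x
    simp only [reg2, Bool.and_eq_true, Bool.or_eq_true, beq_iff_eq]
    exact ⟨⟨⟨⟨⟨⟨⟨hd 0, hd 1⟩, hd 2⟩, hd 3⟩, hd 4⟩, hd 5⟩, hd 6⟩, hd 7⟩
  rw [h0, h1] at h
  simp only [Bool.not_true, Bool.or_false, Bool.false_or, Bool.or_eq_true,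
    decide_eq_true_eq] at h
  rcases h with h | h
  · left
    simpa using h
  · right; exact h

lemma cycL_lt : ∀ c ∈ cycL, c < 8192 := by decide +kernel

lemma cycL_nodup : cycL.Nodup := by decide +kernel

/-- Decision procedure for forests. -/
def forestB (x : ℕ) : Bool := (subL x).isEmpty

lemma land_trans {a b c : ℕ} (h1 : a &&& b = a) (h2 : b &&& c = b) : a &&& c = a := by
  rw [← h1, Nat.land_assoc, h2]

lemma isForest_iff (x : ℕ) : IsForest ends (fs 13 x) ↔ forestB x = true := by
  unfold forestB
  rw [List.isEmpty_iff]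
  constructor
  · intro h
    rw [subL, List.filter_eq_nil_iff]
    intro c hc hcx
    have hcx' : c &&& x = c := by simpa using hcx
    exact h _ (cycL_isCycle c hc) ((fs_subset (cycL_lt c hc)).mpr hcx')
  · intro h C hC hCx
    obtain ⟨r, hr, rfl⟩ := fs_surj 13 C
    have hrx := (fs_subset hr).mp hCx
    rcases cycle_code r hr hC with h1 | h1
    · have : r ∈ subL x := List.mem_filter.mpr ⟨h1, by simpa using hrx⟩
      rw [h] at this
      simp at this
    · obtain ⟨c, hc⟩ := List.exists_mem_of_length_pos (lt_of_lt_of_le (by norm_num) h1)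
      rw [subL, List.mem_filter] at hc
      have hcr : c &&& r = c := by simpa using hc.2
      have : c ∈ subL x := List.mem_filter.mpr ⟨hc.1, by simpa using land_trans hcr hrx⟩
      rw [h] at this
      simp at this

/-- Codes of the cycles through both edges `0` and `1`. -/
def ccL : List ℕ := [0, 4115, 4871, 1179, 2467, 255, 6479, 1935, 3527, 1003]

/-- Code of the `k`-th cycle through both edges `0` and `1` (`k = 1, …, 9`). -/
def cc (k : ℕ) : ℕ := ccL.getD k 0

/-- Lookup table for `idx`. -/
def tab : ℕ := 0x10020000000000000000000000000000000000000000000000000000100000011000000000000000000000000000000000000000000000001000000000000001100000000000000000000000000000000000000010000001100000011000000110000000000000000000000000000000000000000000000010020000000000101202000000000000000000000000000000000000100000011000001010000111100000000000000000000000000000000000000000000011160000000000011110000000000000000000000000000000000000111000011110000111100001111000000000000000000000000000000010020000000000000000000000000010120200000000000000000000100000011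0000000000000000000001010000111100000000000000010000000000000011000000000000010100000000000011110000000100000011000000110000001100000101000011110000111100001111000000000000000100200000000001012020000000000101202000000000010120200001000000110000010100001111000001010000111100000101000011110000000000000111000000000000111100000000000011110000000000001111000001110000111100001111000011110000111100001111000011110000111100000000000000000000000000040000000000000000000000000000000000000000000000000000000000000000000000000000000000000000000000000000000000000004000000800000004400000000000000000000000000000000000000000000000000000000000000000000000000000000000000000000000000000000000000040000000000000404000000000000000000000000000000000000000000000000000000000000000000000000000000000000000000000000000000000000044400000000000044440000000000000000000000000000000000000000000000000000000000000000000000000000000000000000000000000000000000000000000000000000000003007000000000000000000000000000000000000000000000000000030000003300000000000000000000000000000000000000000000000300000000000000330000000000000000000000000000000000000003000000330000003300000033000000000000000000000000000000000000000000090000000000000000000000000000000000000000000000000000000000000000000000000000000000000000000000000000000000000000000000000000000000000000000000000000000000000000000000000000000000000000005000000000000000000000000000000000000000000000000000000000000000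

/-- For the edge set coded by `a` (not containing the edges `0` and `1`): the index `k` of the
unique cycle in the edge set obtained by adding the edges `0` and `1` if there is exactly one cycle
and it contains both of these edges, and `0` otherwise. -/
def idx (a : ℕ) : ℕ := (tab >>> a) &&& 15


lemma idx_check : allBelow 2048 (fun a' =>
    match subL ((4 * a') ||| 3) with
    | [c] => if c &&& 3 == 3 then (!(idx (4 * a') == 0)) && (cc (idx (4 * a')) == c)
        else idx (4 * a') == 0
    | _ => idx (4 * a') == 0) = true := by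
  decide +kernel

end Pool.Agent.MP_b10ab5_co
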