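import Pool.Agent.MP_b10ab5_co.Basic

set_option autoImplicit false

namespace Pool.Agent.MP_b10ab5_co

open MvPolynomial

section General

variable {V E : Type} [Fintype E] [DecidableEq E]

/-- The inner sum of the sum-of-squares expression as a multi-affine polynomial. -/
lemma inner_eq (Adm : Finset E → Finset E → Finset E → Prop)
    [∀ S A, DecidablePred (Adm S A)]
    (hsub : ∀ S A C, Adm S A C → S ⊆ A) (c : Finset E → Finset E → ℤˣ) (S : Finset E) :
    (∑ A : Finset E, ∑ C : Finset E with Adm S A C,
        MvPolynomial.C ((c S C : ℤˣ) : ℤ) * ∏ g ∈ A \ S, X g : MvPolynomial E ℤ)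
      = pol (fun B => if Disjoint B S then
          ∑ C : Finset E with Adm S (S ∪ B) C, ((c S C : ℤˣ) : ℤ) else 0) := by
  unfold pol
  have h1 : ∀ A : Finset E, (∑ C : Finset E with Adm S A C,
        MvPolynomial.C ((c S C : ℤˣ) : ℤ) * ∏ g ∈ A \ S, X g : MvPolynomial E ℤ)
      = if S ⊆ A then monomial (ex (A \ S)) (∑ C : Finset E with Adm S A C, ((c S C : ℤˣ) : ℤ))
        else 0 := by
    intro A
    by_cases h : S ⊆ A
    · rw [if_pos h, map_sum]
      refine Finset.sum_congr rfl (fun C _ => ?_)
      rw [prod_X_eq, C_mul_monomial, mul_one]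
    · rw [if_neg h]
      refine Finset.sum_eq_zero (fun C hC => ?_)
      simp only [Finset.mem_filter, Finset.mem_univ, true_and] at hC
      exact absurd (hsub S A C hC) h
  rw [Finset.sum_congr rfl (fun A _ => h1 A), ← Finset.sum_filter]
  have h2 : ∀ B : Finset E, (monomial (ex B) (if Disjoint B S then
          ∑ C : Finset E with Adm S (S ∪ B) C, ((c S C : ℤˣ) : ℤ) else 0) : MvPolynomial E ℤ)
      = if Disjoint B S then monomial (ex B)
          (∑ C : Finset E with Adm S (S ∪ B) C, ((c S C : ℤˣ) : ℤ)) else 0 := by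
    intro B
    by_cases h : Disjoint B S <;> simp [h]
  rw [Finset.sum_congr rfl (fun B _ => h2 B), ← Finset.sum_filter]
  refine Finset.sum_bij (fun A _ => A \ S) ?_ ?_ ?_ ?_
  · intro A hA
    simp only [Finset.mem_filter, Finset.mem_univ, true_and]
    exact Finset.sdiff_disjoint
  · intro A hA B hB hAB
    simp only [Finset.mem_filter, Finset.mem_univ, true_and] at hA hB
    rw [← Finset.sdiff_union_of_subset hA, ← Finset.sdiff_union_of_subset hB, hAB]
  · intro B hB
    simp only [Finset.mem_filter, Finset.mem_univ, true_and] at hB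
    refine ⟨B ∪ S, by simp, ?_⟩
    exact Finset.union_sdiff_cancel_right hB
  · intro A hA
    simp only [Finset.mem_filter, Finset.mem_univ, true_and] at hA
    rw [Finset.union_sdiff_of_subset hA]

/-- The coefficient of `y^{X₁} y^{2 X₂}` in the sum-of-squares expression. -/
lemma coeff_sos (Adm : Finset E → Finset E → Finset E → Prop)
    [∀ S A, DecidablePred (Adm S A)] (P : Finset E → Prop) [DecidablePred P]
    (hsub : ∀ S A C, Adm S A C → S ⊆ A) (hP : ∀ S A C, Adm S A C → P S)
    (c : Finset E → Finset E → ℤˣ) {X₁ X₂ : Finset E} (hd : Disjoint X₁ X₂) :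
    coeff (ex X₁ + (ex X₂ + ex X₂))
      (∑ S : Finset E with P S, (∏ g ∈ S, X g) * (∑ A : Finset E, ∑ C : Finset E with Adm S A C,
        MvPolynomial.C ((c S C : ℤˣ) : ℤ) * ∏ g ∈ A \ S, X g) ^ 2 : MvPolynomial E ℤ)
      = ∑ S ∈ X₁.powerset, ∑ U ∈ (X₁ \ S).powerset,
          (∑ C : Finset E with Adm S (S ∪ (U ∪ X₂)) C, ((c S C : ℤˣ) : ℤ)) *
          (∑ C : Finset E with Adm S (S ∪ (((X₁ \ S) \ U) ∪ X₂)) C, ((c S C : ℤˣ) : ℤ)) := by
  rw [coeff_sum, Finset.sum_filter]
  have h1 : ∀ S : Finset E, (if P S then coeff (ex X₁ + (ex X₂ + ex X₂))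
      ((∏ g ∈ S, X g) * (∑ A : Finset E, ∑ C : Finset E with Adm S A C,
        MvPolynomial.C ((c S C : ℤˣ) : ℤ) * ∏ g ∈ A \ S, X g) ^ 2 : MvPolynomial E ℤ) else 0)
      = if S ∈ X₁.powerset then ∑ U ∈ (X₁ \ S).powerset,
          (∑ C : Finset E with Adm S (S ∪ (U ∪ X₂)) C, ((c S C : ℤˣ) : ℤ)) *
          (∑ C : Finset E with Adm S (S ∪ (((X₁ \ S) \ U) ∪ X₂)) C, ((c S C : ℤˣ) : ℤ)) else 0 := by
    intro S
    by_cases hPS : P S
    · rw [if_pos hPS, inner_eq Adm hsub c S, prod_X_eq, coeff_mon_mul_sq _ hd]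
      · simp only [Finset.mem_powerset]
        by_cases hS : S ⊆ X₁
        · rw [if_pos hS, if_pos hS]
          refine Finset.sum_congr rfl (fun U hU => ?_)
          rw [Finset.mem_powerset] at hU
          have hSX : Disjoint S X₂ := Finset.disjoint_of_subset_left hS hd
          have d1 : Disjoint (U ∪ X₂) S := by
            rw [Finset.disjoint_union_left]
            exact ⟨Finset.disjoint_of_subset_left hU Finset.sdiff_disjoint, hSX.symm⟩
          have d2 : Disjoint (((X₁ \ S) \ U) ∪ X₂) S := by
            rw [Finset.disjoint_union_left]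
            exact ⟨Finset.disjoint_of_subset_left Finset.sdiff_subset Finset.sdiff_disjoint,
              hSX.symm⟩
          rw [if_pos d1, if_pos d2]
        · rw [if_neg hS, if_neg hS]
      · intro B hB
        rw [if_neg hB]
    · rw [if_neg hPS]
      split_ifs with hS
      · symm
        refine Finset.sum_eq_zero (fun U _ => ?_)
        have : (Finset.univ.filter (fun C : Finset E => Adm S (S ∪ (U ∪ X₂)) C)) = ∅ := by
          refine Finset.filter_eq_empty_iff.mpr (fun C _ hC => hPS (hP S _ C hC))
        rw [this, Finset.sum_empty, zero_mul]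
      · rfl
  rw [Finset.sum_congr rfl (fun S _ => h1 S), ← Finset.sum_filter]
  refine Finset.sum_congr ?_ (fun _ _ => rfl)
  ext S
  simp

/-- The coefficient of `y^{X₁} y^{2 X₂}` in the Rayleigh difference. -/
lemma coeff_rayleigh (ends : E → Sym2 V) [DecidablePred (IsForest ends)] {e f : E} (hef : e ≠ f)
    {X₁ X₂ : Finset E} (hd : Disjoint X₁ X₂)
    (he₁ : e ∉ X₁) (he₂ : e ∉ X₂) (hf₁ : f ∉ X₁) (hf₂ : f ∉ X₂) :
    coeff (ex X₁ + (ex X₂ + ex X₂)) (rayleighDiff ends e f)
      = ∑ U ∈ X₁.powerset,
          ((if IsForest ends (insert e (U ∪ X₂)) then 1 else 0) *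
            (if IsForest ends (insert f ((X₁ \ U) ∪ X₂)) then 1 else 0)
          - (if IsForest ends (U ∪ X₂) then 1 else 0) *
            (if IsForest ends (insert f (insert e ((X₁ \ U) ∪ X₂))) then 1 else 0)) := by
  unfold rayleighDiff
  rw [forestPoly_eq, pderiv_pol, pderiv_pol, pderiv_pol, coeff_sub, coeff_pol_mul _ _ hd,
    coeff_pol_mul _ _ hd, ← Finset.sum_sub_distrib]
  refine Finset.sum_congr rfl (fun U hU => ?_)
  rw [Finset.mem_powerset] at hU
  have h1 : e ∉ U ∪ X₂ := by
    rw [Finset.mem_union]; rintro (h | h); exacts [he₁ (hU h), he₂ h]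
  have h2 : f ∉ (X₁ \ U) ∪ X₂ := by
    rw [Finset.mem_union]; rintro (h | h); exacts [hf₁ (Finset.mem_sdiff.mp h).1, hf₂ h]
  have h3 : e ∉ (X₁ \ U) ∪ X₂ := by
    rw [Finset.mem_union]; rintro (h | h); exacts [he₁ (Finset.mem_sdiff.mp h).1, he₂ h]
  have h4 : f ∉ insert e ((X₁ \ U) ∪ X₂) := by
    rw [Finset.mem_insert]; rintro (h | h); exacts [hef h.symm, h2 h]
  rw [if_neg h1, if_neg h2, if_neg h3, if_neg h4]

end General

/-- The subset of `Fin m` coded by the binary expansion of `n`. -/
def fs (m n : ℕ) : Finset (Fin m) := Finset.univ.filter (fun i => n.testBit i.val)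

lemma mem_fs {m n : ℕ} (i : Fin m) : i ∈ fs m n ↔ n.testBit i.val = true := by
  simp [fs]

lemma fs_or (m a b : ℕ) : fs m (a ||| b) = fs m a ∪ fs m b := by
  ext i
  simp [mem_fs]

lemma fs_zero (m : ℕ) : fs m 0 = ∅ := by
  ext i
  simp [mem_fs]

lemma fs_pow (m : ℕ) (i : Fin m) : fs m (2 ^ i.val) = {i} := by
  ext j
  rw [mem_fs, Nat.testBit_two_pow, Finset.mem_singleton, Fin.ext_iff]
  simp only [decide_eq_true_eq]
  exact eq_comm

lemma fs_or_pow (m a : ℕ) (i : Fin m) : fs m (a ||| 2 ^ i.val) = insert i (fs m a) := by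
  rw [fs_or, fs_pow, Finset.union_comm, Finset.insert_eq]

lemma fs_surj (m : ℕ) (Y : Finset (Fin m)) : ∃ n, n < 2 ^ m ∧ fs m n = Y := by
  induction Y using Finset.induction_on with
  | empty => exact ⟨0, by positivity, fs_zero m⟩
  | insert i Y h ih =>
    obtain ⟨n, hn, hY⟩ := ih
    refine ⟨n ||| 2 ^ i.val, Nat.or_lt_two_pow hn (Nat.pow_lt_pow_right (by norm_num) i.isLt), ?_⟩
    rw [fs_or_pow, hY]

lemma fs_subset {m a b : ℕ} (ha : a < 2 ^ m) : fs m a ⊆ fs m b ↔ a &&& b = a := by
  constructor
  · intro h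
    apply Nat.eq_of_testBit_eq
    intro i
    rw [Nat.testBit_land]
    by_cases hi : i < m
    · have := @h ⟨i, hi⟩
      rw [mem_fs, mem_fs] at this
      cases h1 : a.testBit i
      · simp
      · simp [this h1]
    · have : a.testBit i = false := by
        apply Nat.testBit_lt_two_pow
        exact lt_of_lt_of_le ha (Nat.pow_le_pow_right (by norm_num) (by omega))
      simp [this]
  · intro h i hi
    rw [mem_fs] at hi ⊢
    rw [← h, Nat.testBit_land] at hi
    simp only [Bool.and_eq_true] at hi
    exact hi.2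

lemma fs_inj {m a b : ℕ} (ha : a < 2 ^ m) (hb : b < 2 ^ m) (h : fs m a = fs m b) : a = b := by
  have h1 := (fs_subset (m := m) ha).mp h.subset
  have h2 := (fs_subset (m := m) hb).mp h.symm.subset
  rw [← h1, Nat.land_comm, h2]

/-- Sum over all ordered bipartitions of the elements of a list. -/
def sum2 {m : ℕ} : List (Fin m) → (ℕ → ℕ → ℤ) → ℤ
  | [], F => F 0 0
  | i :: l, F => sum2 l (fun u w => F (u ||| 2 ^ i.val) w) + sum2 l (fun u w => F u (w ||| 2 ^ i.val))

/-- Sum over all ordered tripartitions of the elements of a list. -/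
def sum3 {m : ℕ} : List (Fin m) → (ℕ → ℕ → ℕ → ℤ) → ℤ
  | [], F => F 0 0 0
  | i :: l, F => sum3 l (fun s u w => F (s ||| 2 ^ i.val) u w)
      + sum3 l (fun s u w => F s (u ||| 2 ^ i.val) w) + sum3 l (fun s u w => F s u (w ||| 2 ^ i.val))

lemma sum_powerset_eq_sum2 {m : ℕ} (l : List (Fin m)) (hl : l.Nodup)
    (F : Finset (Fin m) → Finset (Fin m) → ℤ) :
    ∑ U ∈ l.toFinset.powerset, F U (l.toFinset \ U) = sum2 l (fun u w => F (fs m u) (fs m w)) := by
  induction l generalizing F with
  | nil => simp [sum2, fs_zero]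
  | cons i l ih =>
    rw [List.nodup_cons] at hl
    have hi : i ∉ l.toFinset := by simpa using hl.1
    rw [List.toFinset_cons, Finset.sum_powerset_insert hi, sum2, add_comm]
    congr 1
    · have h1 : ∀ U ∈ l.toFinset.powerset, F (insert i U) (insert i l.toFinset \ insert i U)
          = F (insert i U) (l.toFinset \ U) := by
        intro U hU
        congr 1
        ext j
        rw [Finset.mem_powerset] at hU
        simp only [Finset.mem_sdiff, Finset.mem_insert]
        by_cases hj : j = i
        · subst hj; simp [hl.1]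
        · simp [hj]
      rw [Finset.sum_congr rfl h1, ih hl.2 (fun U W => F (insert i U) W)]
      simp only [fs_or_pow]
    · have h1 : ∀ U ∈ l.toFinset.powerset, F U (insert i l.toFinset \ U)
          = F U (insert i (l.toFinset \ U)) := by
        intro U hU
        rw [Finset.mem_powerset] at hU
        rw [Finset.insert_sdiff_of_notMem _ (fun h => hi (hU h))]
      rw [Finset.sum_congr rfl h1, ih hl.2 (fun U W => F U (insert i W))]
      simp only [fs_or_pow]

lemma sum_powerset_eq_sum3 {m : ℕ} (l : List (Fin m)) (hl : l.Nodup)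
    (F : Finset (Fin m) → Finset (Fin m) → Finset (Fin m) → ℤ) :
    ∑ S ∈ l.toFinset.powerset, ∑ U ∈ (l.toFinset \ S).powerset, F S U ((l.toFinset \ S) \ U)
      = sum3 l (fun s u w => F (fs m s) (fs m u) (fs m w)) := by
  induction l generalizing F with
  | nil => simp [sum3, fs_zero]
  | cons i l ih =>
    rw [List.nodup_cons] at hl
    have hi : i ∉ l.toFinset := by simpa using hl.1
    rw [List.toFinset_cons, Finset.sum_powerset_insert hi, sum3, add_comm, add_assoc]
    congr 1
    · have h1 : ∀ S ∈ l.toFinset.powerset,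
          (∑ U ∈ (insert i l.toFinset \ insert i S).powerset,
            F (insert i S) U ((insert i l.toFinset \ insert i S) \ U))
          = ∑ U ∈ (l.toFinset \ S).powerset, F (insert i S) U ((l.toFinset \ S) \ U) := by
        intro S hS
        have : insert i l.toFinset \ insert i S = l.toFinset \ S := by
          ext j
          simp only [Finset.mem_sdiff, Finset.mem_insert]
          by_cases hj : j = i
          · subst hj; simp [hl.1]
          · simp [hj]
        rw [this]
      rw [Finset.sum_congr rfl h1, ih hl.2 (fun S U W => F (insert i S) U W)]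
      simp only [fs_or_pow]
    · have h1 : ∀ S ∈ l.toFinset.powerset,
          (∑ U ∈ (insert i l.toFinset \ S).powerset, F S U ((insert i l.toFinset \ S) \ U))
          = ∑ U ∈ (l.toFinset \ S).powerset, F S (insert i U) ((l.toFinset \ S) \ U)
            + ∑ U ∈ (l.toFinset \ S).powerset, F S U (insert i ((l.toFinset \ S) \ U)) := by
        intro S hS
        rw [Finset.mem_powerset] at hS
        have hiS : i ∉ S := fun h => hi (hS h)
        rw [Finset.insert_sdiff_of_notMem _ hiS]
        have hi' : i ∉ l.toFinset \ S := fun h => hi (Finset.mem_sdiff.mp h).1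
        rw [Finset.sum_powerset_insert hi', add_comm]
        congr 1
        · refine Finset.sum_congr rfl (fun U hU => ?_)
          congr 1
          ext j
          simp only [Finset.mem_sdiff, Finset.mem_insert]
          by_cases hj : j = i
          · subst hj; simp [hl.1]
          · simp [hj]
        · refine Finset.sum_congr rfl (fun U hU => ?_)
          rw [Finset.mem_powerset] at hU
          rw [Finset.insert_sdiff_of_notMem _ (fun h => hi' (hU h))]
      rw [Finset.sum_congr rfl h1, Finset.sum_add_distrib,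
        ih hl.2 (fun S U W => F S (insert i U) W), ih hl.2 (fun S U W => F S U (insert i W))]
      simp only [fs_or_pow]

/-- Collecting lists over all ordered tripartitions of the elements of a list. -/
def col3 {m : ℕ} {α : Type} : List (Fin m) → (ℕ → ℕ → ℕ → List α) → List α
  | [], F => F 0 0 0
  | i :: l, F => col3 l (fun s u w => F (s ||| 2 ^ i.val) u w)
      ++ col3 l (fun s u w => F s (u ||| 2 ^ i.val) w) ++ col3 l (fun s u w => F s u (w ||| 2 ^ i.val))

lemma sum3_eq_col3 {m : ℕ} {α : Type} (val : α → ℤ) (l : List (Fin m))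
    (F : ℕ → ℕ → ℕ → List α) :
    sum3 l (fun s u w => ((F s u w).map val).sum) = ((col3 l F).map val).sum := by
  induction l generalizing F with
  | nil => rfl
  | cons i l ih =>
    simp only [sum3, col3, List.map_append, List.sum_append]
    rw [ih (fun s u w => F (s ||| 2 ^ i.val) u w), ih (fun s u w => F s (u ||| 2 ^ i.val) w),
      ih (fun s u w => F s u (w ||| 2 ^ i.val))]

/-- Splitting off the diagonal terms, which are squares of signs. -/
lemma sum_split (σ : ℕ → ℕ → ℤ) (hσ : ∀ s k, σ s k * σ s k = 1) (L : List (ℕ × ℕ × ℕ)) :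
    (L.map (fun t => σ t.1 t.2.1 * σ t.1 t.2.2)).sum
      = ((L.filter (fun t => t.2.1 == t.2.2)).length : ℤ)
        + ((L.filter (fun t => !(t.2.1 == t.2.2))).map
            (fun t => σ t.1 t.2.1 * σ t.1 t.2.2)).sum := by
  induction L with
  | nil => simp
  | cons t L ih =>
    rw [List.map_cons, List.sum_cons, ih]
    by_cases h : t.2.1 = t.2.2
    · have h1 : (t.2.1 == t.2.2) = true := by simpa using h
      rw [List.filter_cons_of_pos (by simpa using h), List.filter_cons_of_neg (by simp [h])]
      rw [h, hσ, List.length_cons]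
      push_cast
      ring
    · rw [List.filter_cons_of_neg (by simpa using h), List.filter_cons_of_pos (by simpa using h)]
      rw [List.map_cons, List.sum_cons]
      ring

end Pool.Agent.MP_b10ab5_co
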